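import Mathlib
import Pool.Agent.He29efe.Core

set_option autoImplicit false

namespace Pool.Agent.Results.MP_e29efe_nt.Main

open Polynomial

/-- Condition (A). -/
def CondA {d : ℕ} (b : Fin d → ℤ) : Prop :=
  ∃ i, ∑ j ∈ Finset.univ.erase i, |b j| < |b i|

/-- Condition (B). -/
def CondB {d : ℕ} (b : Fin d → ℤ) : Prop :=
  ∃ i, ∃ p : ℕ, p.Prime ∧ ¬ (p : ℤ) ∣ b i ∧ ∀ j, j ≠ i → (p : ℤ) ∣ b j

/-- `α` lists the `d` distinct conjugates of a nonzero algebraic number of degree `d`, and the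
relation `(R_b)` holds. -/
def IsSolution {d : ℕ} (b : Fin d → ℤ) (α : Fin d → ℂ) : Prop :=
  (∃ f : ℚ[X], Irreducible f ∧ f.natDegree = d ∧ ∀ i, aeval (α i) f = 0) ∧
    Function.Injective α ∧ (∀ i, α i ≠ 0) ∧ ∏ i, α i ^ b i = 1

def IsRootOfUnity (z : ℂ) : Prop := ∃ n : ℕ, 0 < n ∧ z ^ n = 1

/-- The statement of Q1. -/
def Q1 : Prop :=
  ∀ d : ℕ, 1 ≤ d → ∀ b : Fin d → ℤ, ¬ CondA b → ¬ CondB b →
    ∃ α : Fin d → ℂ, IsSolution b α ∧ ∃ i, ¬ IsRootOfUnity (α i)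

/-- the vector `(3, 2, 1, ..., 1)` of length `n + 3` -/
def vec (n : ℕ) (i : Fin (n + 3)) : ℤ := if i = 0 then 3 else if i = 1 then 2 else 1

theorem two_ne_zero' (n : ℕ) : (2 : Fin (n + 3)) ≠ 0 := by
  intro h
  have hv : ((2 : Fin (n + 3)) : ℕ) = 2 := by
    show 2 % (n + 3) = 2
    exact Nat.mod_eq_of_lt (by omega)
  rw [h] at hv
  simp at hv

theorem two_ne_one' (n : ℕ) : (2 : Fin (n + 3)) ≠ 1 := by
  intro h
  have hv : ((2 : Fin (n + 3)) : ℕ) = 2 := by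
    show 2 % (n + 3) = 2
    exact Nat.mod_eq_of_lt (by omega)
  have hw : ((1 : Fin (n + 3)) : ℕ) = 1 := by
    show 1 % (n + 3) = 1
    exact Nat.mod_eq_of_lt (by omega)
  rw [h, hw] at hv
  omega

theorem vec_zero (n : ℕ) : vec n 0 = 3 := if_pos rfl
theorem vec_one (n : ℕ) : vec n 1 = 2 := by
  unfold vec
  rw [if_neg (by simp), if_pos rfl]
theorem vec_two (n : ℕ) : vec n 2 = 1 := by
  unfold vec
  rw [if_neg (two_ne_zero' n), if_neg (two_ne_one' n)]

theorem not_condA (n : ℕ) : ¬ CondA (vec n) := by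
  rintro ⟨i, hi⟩
  have hle : |vec n i| ≤ 3 := by unfold vec; split_ifs <;> norm_num
  have htot : ∑ j, |vec n j| = ∑ j ∈ Finset.univ.erase i, |vec n j| + |vec n i| :=
    (Finset.sum_erase_add _ _ (Finset.mem_univ i)).symm
  have hsum : (n : ℤ) + 6 ≤ ∑ j, |vec n j| := by
    rw [Fin.sum_univ_succ, Fin.sum_univ_succ]
    have h0 : |vec n 0| = 3 := by rw [vec_zero]; rfl
    have h1 : |vec n (Fin.succ 0)| = 2 := by
      rw [show (Fin.succ 0 : Fin (n + 3)) = 1 from rfl, vec_one]; rfl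
    rw [h0, h1]
    have h2 : ∑ j : Fin (n + 1), (1 : ℤ) ≤ ∑ j : Fin (n + 1), |vec n j.succ.succ| := by
      apply Finset.sum_le_sum
      intro j _
      unfold vec
      split_ifs <;> norm_num
    simp at h2
    linarith
  linarith

theorem not_condB (n : ℕ) : ¬ CondB (vec n) := by
  rintro ⟨i, p, hp, hi, hj⟩
  have hne : ∀ j, vec n j = 1 → j = i := by
    intro j hj1
    by_contra h
    have := hj j h
    rw [hj1] at this
    exact hp.one_lt.ne' (by exact_mod_cast Int.eq_one_of_dvd_one (by positivity) this)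
  have h2 := hne 2 (vec_two n)
  have h01 : (0 : Fin (n + 3)) ≠ i := by
    rw [← h2]; exact (two_ne_zero' n).symm
  have h11 : (1 : Fin (n + 3)) ≠ i := by
    rw [← h2]; exact (two_ne_one' n).symm
  have a3 := hj 0 h01
  have a2 := hj 1 h11
  rw [vec_zero] at a3
  rw [vec_one] at a2
  have : (p : ℤ) ∣ 1 := by
    have := dvd_sub a3 a2
    norm_num at this
    exact this
  exact hp.one_lt.ne' (by exact_mod_cast Int.eq_one_of_dvd_one (by positivity) this)

theorem only_roots_of_unity (n : ℕ) (α : Fin (n + 3) → ℂ) (h : IsSolution (vec n) α) :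
    ∀ i, IsRootOfUnity (α i) := by
  obtain ⟨⟨f, hf, hd, hroot⟩, hinj, h0, hrel⟩ := h
  obtain ⟨q, hq⟩ := Pool.Agent.He29efe.prod_rat f hf (n + 3) hd α hinj hroot
  have hprod : ∀ β : Fin (n + 3) → ℂ, ∏ i, β i ^ vec n i = (∏ i, β i) * β 1 * β 0 ^ 2 := by
    intro β
    rw [Fin.prod_univ_succ, Fin.prod_univ_succ, Fin.prod_univ_succ (f := β),
      Fin.prod_univ_succ (f := fun i => β (Fin.succ i))]
    have e1 : (Fin.succ 0 : Fin (n + 3)) = 1 := rfl
    have e2 : ∏ j : Fin (n + 1), β j.succ.succ ^ vec n j.succ.succ = ∏ j : Fin (n + 1), β j.succ.succ := by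
      apply Finset.prod_congr rfl
      intro j _
      have : vec n j.succ.succ = 1 := by
        unfold vec
        rw [if_neg (Fin.succ_ne_zero _), if_neg]
        intro h
        have h' : j.succ.succ = Fin.succ (0 : Fin (n + 2)) := h
        exact Fin.succ_ne_zero _ (Fin.succ_injective _ h')
      rw [this, zpow_one]
    rw [e2, e1, vec_zero, vec_one]
    have e3 : β 0 ^ (3 : ℤ) = β 0 ^ 3 := by norm_cast
    have e4 : β 1 ^ (2 : ℤ) = β 1 ^ 2 := by norm_cast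
    rw [e3, e4]
    ring
  have hN0 : (q : ℂ) ≠ 0 := by
    rw [hq]
    exact Finset.prod_ne_zero_iff.mpr fun i _ => h0 i
  have hq0 : q ≠ 0 := by exact_mod_cast hN0
  rw [hprod, ← hq] at hrel
  have hxy : α 1 = ((q⁻¹ : ℚ) : ℂ) * (α 0 ^ 2)⁻¹ := by
    push_cast
    have h00 := h0 0
    field_simp
    linear_combination hrel
  obtain ⟨k, hk, t, ht⟩ := Pool.Agent.He29efe.power_rat f hf (α 0) (α 1) (h0 0) (hroot 0) (hroot 1)
    q⁻¹ (inv_ne_zero hq0) hxy
  have hall : ∀ i, α i ^ k = (t : ℂ) := fun i =>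
    Pool.Agent.He29efe.power_transfer f hf (α 0) (α i) (hroot 0) (hroot i) k t ht
  have hrelk : (t : ℂ) ^ (n + 6) = 1 := by
    have h1 : ((∏ i, α i) * α 1 * α 0 ^ 2) ^ k = 1 := by rw [← hq, hrel, one_zpow]
    rw [mul_zpow, mul_zpow, ← Finset.prod_zpow, hall 1] at h1
    have h2 : (α 0 ^ 2) ^ k = (t : ℂ) ^ 2 := by
      rw [← zpow_natCast (α 0) 2, ← zpow_mul, mul_comm, zpow_mul, hall 0]
      norm_cast
    rw [h2] at h1
    simp only [hall] at h1
    rw [Finset.prod_const, Finset.card_univ, Fintype.card_fin] at h1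
    rw [← h1]; ring
  have ht2 : t ^ 2 = 1 := by
    have h1 : t ^ (n + 6) = 1 := by exact_mod_cast hrelk
    have h2 : |t| ^ (n + 6) = 1 := by rw [← abs_pow, h1, abs_one]
    have h3 : |t| = 1 := (pow_eq_one_iff_of_nonneg (abs_nonneg t) (by omega)).mp h2
    rw [← sq_abs, h3, one_pow]
  intro i
  refine ⟨(k * 2).natAbs, by omega, ?_⟩
  have h1 : α i ^ (k * 2) = 1 := by
    rw [zpow_mul, hall i]
    exact_mod_cast ht2
  rcases Int.natAbs_eq (k * 2) with h2 | h2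
  · rw [h2, zpow_natCast] at h1
    exact h1
  · rw [h2, zpow_neg, zpow_natCast, inv_eq_one] at h1
    exact h1

/-- For `d = 4` the relation does have a solution: the primitive fifth roots of unity. -/
theorem exists_solution : ∃ α : Fin 4 → ℂ, IsSolution (vec 1) α := by
  set ζ : ℂ := Complex.exp (2 * Real.pi * Complex.I / 5) with hζ
  have hprim : IsPrimitiveRoot ζ 5 := by
    have h := Complex.isPrimitiveRoot_exp 5 (by norm_num)
    simpa [hζ] using h
  have h5 : ζ ^ 5 = 1 := hprim.pow_eq_one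
  have hz0 : ζ ≠ 0 := hprim.ne_zero (by norm_num)
  refine ⟨fun i => ζ ^ ([1, 3, 2, 4].getD i.val 0), ⟨⟨cyclotomic 5 ℚ, ?_, ?_, ?_⟩, ?_, ?_, ?_⟩⟩
  · exact cyclotomic.irreducible_rat (by norm_num)
  · rw [natDegree_cyclotomic]; decide
  · have key : ∀ k : ℕ, k.Coprime 5 → aeval (ζ ^ k) (cyclotomic 5 ℚ) = 0 := by
      intro k hk
      have h1 := (hprim.pow_of_coprime k hk).isRoot_cyclotomic (by norm_num)
      rw [IsRoot.def] at h1
      rw [← eval_map_algebraMap, map_cyclotomic]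
      exact h1
    intro i
    fin_cases i
    · exact key 1 (by norm_num)
    · exact key 3 (by norm_num)
    · exact key 2 (by norm_num)
    · exact key 4 (by norm_num)
  · intro i j hij
    have hlt : ∀ i : Fin 4, [1, 3, 2, 4].getD i.val 0 < 5 := by decide
    have h1 := hprim.pow_inj (hlt i) (hlt j) hij
    have hdec : ∀ i j : Fin 4, [1, 3, 2, 4].getD i.val 0 = [1, 3, 2, 4].getD j.val 0 → i = j := by
      decide
    exact hdec i j h1
  · intro i
    exact pow_ne_zero _ hz0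
  · rw [Fin.prod_univ_four]
    have v0 : vec 1 0 = 3 := by decide
    have v1 : vec 1 1 = 2 := by decide
    have v2 : vec 1 2 = 1 := by decide
    have v3 : vec 1 3 = 1 := by decide
    rw [v0, v1, v2, v3]
    show (ζ ^ 1) ^ (3 : ℤ) * (ζ ^ 3) ^ (2 : ℤ) * (ζ ^ 2) ^ (1 : ℤ) * (ζ ^ 4) ^ (1 : ℤ) = 1
    have e3 : ∀ z : ℂ, z ^ (3 : ℤ) = z ^ 3 := fun z => by norm_cast
    have e2 : ∀ z : ℂ, z ^ (2 : ℤ) = z ^ 2 := fun z => by norm_cast
    rw [e3, e2, zpow_one, zpow_one]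
    calc (ζ ^ 1) ^ 3 * (ζ ^ 3) ^ 2 * ζ ^ 2 * ζ ^ 4 = (ζ ^ 5) ^ 3 := by ring
      _ = 1 := by rw [h5, one_pow]

/-- The answer to Q1 is negative, for every degree `d ≥ 3`; for `d = 4` the relation
`α₀³ α₁² α₂ α₃ = 1` is solvable, but only by roots of unity. -/
theorem result : ¬ Q1 ∧
    (∀ d : ℕ, 3 ≤ d → ∃ b : Fin d → ℤ, ¬ CondA b ∧ ¬ CondB b ∧
      ∀ α : Fin d → ℂ, IsSolution b α → ∀ i, IsRootOfUnity (α i)) ∧
    (∃ b : Fin 4 → ℤ, ¬ CondA b ∧ ¬ CondB b ∧ (∃ α : Fin 4 → ℂ, IsSolution b α) ∧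
      ∀ α : Fin 4 → ℂ, IsSolution b α → ∀ i, IsRootOfUnity (α i)) := by
  refine ⟨?_, ?_, ?_⟩
  · intro h
    obtain ⟨α, hα, i, hi⟩ := h 4 (by norm_num) (vec 1) (not_condA 1) (not_condB 1)
    exact hi (only_roots_of_unity 1 α hα i)
  · intro d hd
    obtain ⟨n, rfl⟩ : ∃ n, d = n + 3 := ⟨d - 3, by omega⟩
    exact ⟨vec n, not_condA n, not_condB n, only_roots_of_unity n⟩
  · exact ⟨vec 1, not_condA 1, not_condB 1, exists_solution, only_roots_of_unity 1⟩

end Pool.Agent.Results.MP_e29efe_nt.Main
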